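import Pool.Agent.N563.LSP.Stm
set_option autoImplicit false

/-! # Interpolation between `L^4` and `L^∞` (helper34 for project LSP of helper563) -/

open MeasureTheory Set
open scoped ENNReal

namespace Pool.Agent.N34.LSP

lemma enorm_pow4 (w : ℂ) : ‖w‖ₑ ^ 4 = ENNReal.ofReal (‖w‖ ^ 4) := by
  rw [← ofReal_norm, ENNReal.ofReal_pow (norm_nonneg _)]

lemma enorm_rpow {p : ℝ} (hp : 0 ≤ p) (w : ℂ) : ‖w‖ₑ ^ p = ENNReal.ofReal (‖w‖ ^ p) := by
  rw [← ofReal_norm, ENNReal.ofReal_rpow_of_nonneg (norm_nonneg _) hp]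

/-- the bound for the distribution function -/
lemma weak (A B : ℝ) (T : (ℝ → ℂ) → ℝ × ℝ → ℂ) (μ : Measure (ℝ × ℝ)) (hA : 0 < A) (hB : 0 < B)
    (hm : ∀ G, Integrable G → Measurable (T G))
    (hadd : ∀ G₁ G₂, Integrable G₁ → Integrable G₂ → ∀ z, T (fun x => G₁ x + G₂ x) z = T G₁ z + T G₂ z)
    (h4 : ∀ G, Integrable G → ∫⁻ z, ‖T G z‖ₑ ^ 4 ∂μ ≤ ENNReal.ofReal A * ∫⁻ x : ℝ, ‖G x‖ₑ ^ 4)
    (hinf : ∀ (G : ℝ → ℂ) (l : ℝ), Integrable G → (∀ x, ‖G x‖ ≤ l) → ∀ᵐ z ∂μ, ‖T G z‖ ≤ B * l)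
    (G : ℝ → ℂ) (hG : Integrable G) (t : ℝ) (ht : 0 < t) :
    μ {z | t < ‖T G z‖} ≤ ENNReal.ofReal (16 * A * t ^ (-4 : ℝ)) *
      ∫⁻ x, {x | t < 2 * B * ‖G x‖}.indicator (fun x => ‖G x‖ₑ ^ 4) x := by
  classical
  set c : ℝ := t / (2 * B) with hc
  have hc0 : 0 < c := by positivity
  set S : Set ℝ := {x | t < 2 * B * ‖G x‖} with hS
  have hmem : ∀ x, x ∉ S → ‖G x‖ ≤ c := by
    intro x hx
    simp only [hS, mem_ofPred_eq, not_lt] at hx
    rw [hc, le_div_iff₀ (by positivity)]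
    linarith
  have hSm : NullMeasurableSet S := by
    apply nullMeasurableSet_lt aemeasurable_const
    exact (hG.aestronglyMeasurable.norm.aemeasurable).const_mul _
  have I1 : Integrable (S.indicator G) := hG.indicator₀ hSm
  have I2 : Integrable (Sᶜ.indicator G) := hG.indicator₀ hSm.compl
  have hsum : (fun x => S.indicator G x + Sᶜ.indicator G x) = G := by
    funext x
    exact congrFun (Set.indicator_self_add_compl S G) x
  have hT : ∀ z, T G z = T (S.indicator G) z + T (Sᶜ.indicator G) z := by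
    intro z
    rw [← hadd _ _ I1 I2 z, hsum]
  have hsmall : ∀ x, ‖Sᶜ.indicator G x‖ ≤ c := by
    intro x
    by_cases hx : x ∈ S
    · rw [Set.indicator_of_notMem (by simpa using hx), norm_zero]
      exact hc0.le
    · rw [Set.indicator_of_mem (by simpa using hx)]
      exact hmem x hx
  have h2 := hinf _ c I2 hsmall
  have hBc : B * c = t / 2 := by rw [hc]; field_simp
  have e1 : μ {z | t < ‖T G z‖} ≤ μ {z | ENNReal.ofReal ((t / 2) ^ 4) ≤ ‖T (S.indicator G) z‖ₑ ^ 4} := by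
    apply measure_mono_ae
    filter_upwards [h2] with z hz hz2
    change t < ‖T G z‖ at hz2
    change ENNReal.ofReal ((t / 2) ^ 4) ≤ ‖T (S.indicator G) z‖ₑ ^ 4
    rw [enorm_pow4]
    apply ENNReal.ofReal_le_ofReal
    rw [hT z] at hz2
    have h5 := norm_add_le (T (S.indicator G) z) (T (Sᶜ.indicator G) z)
    rw [hBc] at hz
    have h6 : t / 2 ≤ ‖T (S.indicator G) z‖ := by linarith
    exact pow_le_pow_left₀ (by positivity) h6 4
  have e2 : μ {z | ENNReal.ofReal ((t / 2) ^ 4) ≤ ‖T (S.indicator G) z‖ₑ ^ 4} ≤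
      (∫⁻ z, ‖T (S.indicator G) z‖ₑ ^ 4 ∂μ) / ENNReal.ofReal ((t / 2) ^ 4) := by
    apply meas_ge_le_lintegral_div
    · exact ((hm _ I1).enorm.pow_const 4).aemeasurable
    · rw [Ne, ENNReal.ofReal_eq_zero, not_le]
      positivity
    · exact ENNReal.ofReal_ne_top
  have e3 : ∫⁻ x, ‖S.indicator G x‖ₑ ^ 4 = ∫⁻ x, S.indicator (fun x => ‖G x‖ₑ ^ 4) x := by
    apply lintegral_congr
    intro x
    by_cases hx : x ∈ S
    · rw [Set.indicator_of_mem hx, Set.indicator_of_mem hx]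
    · rw [Set.indicator_of_notMem hx, Set.indicator_of_notMem hx]
      simp
  refine e1.trans (e2.trans ?_)
  calc (∫⁻ z, ‖T (S.indicator G) z‖ₑ ^ 4 ∂μ) / ENNReal.ofReal ((t / 2) ^ 4)
      ≤ (ENNReal.ofReal A * ∫⁻ x : ℝ, ‖S.indicator G x‖ₑ ^ 4) / ENNReal.ofReal ((t / 2) ^ 4) := by
        gcongr
        exact h4 _ I1
    _ = (ENNReal.ofReal A / ENNReal.ofReal ((t / 2) ^ 4)) * ∫⁻ x : ℝ, ‖S.indicator G x‖ₑ ^ 4 := by
        rw [ENNReal.div_eq_inv_mul, ENNReal.div_eq_inv_mul, mul_assoc]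
    _ = _ := by
        rw [e3, ← ENNReal.ofReal_div_of_pos (by positivity)]
        congr 2
        rw [Real.rpow_neg ht.le]
        have : t ^ (4 : ℝ) = t ^ 4 := by
          rw [← Real.rpow_natCast]
          norm_num
        rw [this]
        field_simp
        norm_num

/-- the inner integral -/
lemma inner {p b : ℝ} (hp : 4 < p) (hb : 0 ≤ b) :
    ∫⁻ t in Ioi (0 : ℝ), (if t < b then ENNReal.ofReal (t ^ (p - 5)) else 0) =
      ENNReal.ofReal (b ^ (p - 4) / (p - 4)) := by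
  have e1 : ∫⁻ t in Ioi (0 : ℝ), (if t < b then ENNReal.ofReal (t ^ (p - 5)) else 0) =
      ∫⁻ t in Ioo (0 : ℝ) b, ENNReal.ofReal (t ^ (p - 5)) := by
    have : (fun t : ℝ => if t < b then ENNReal.ofReal (t ^ (p - 5)) else 0) =
        (Iio b).indicator (fun t => ENNReal.ofReal (t ^ (p - 5))) := by
      funext t
      by_cases h : t < b
      · rw [if_pos h, Set.indicator_of_mem (show t ∈ Iio b from h)]
      · rw [if_neg h, Set.indicator_of_notMem (show t ∉ Iio b from h)]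
    rw [this, lintegral_indicator measurableSet_Iio, Measure.restrict_restrict measurableSet_Iio,
      Set.inter_comm, Set.Ioi_inter_Iio]
  have hi : IntervalIntegrable (fun t : ℝ => t ^ (p - 5)) volume 0 b :=
    intervalIntegral.intervalIntegrable_rpow' (by linarith)
  rw [e1, setLIntegral_congr Ioo_ae_eq_Ioc, ← ofReal_integral_eq_lintegral_ofReal
    ((intervalIntegrable_iff_integrableOn_Ioc_of_le hb).1 hi)]
  · rw [← intervalIntegral.integral_of_le hb, integral_rpow (Or.inl (by linarith))]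
    have e2 : p - 5 + 1 = p - 4 := by ring
    rw [e2, Real.zero_rpow (by linarith), sub_zero]
  · filter_upwards [ae_restrict_mem measurableSet_Ioc] with t ht
    exact Real.rpow_nonneg ht.1.le _

theorem marc_ : Pool.Agent.N563.LSP.S_MARC := by
  classical
  intro p hp
  have hp4 : 0 < p - 4 := by linarith
  have hp0 : 0 < p := by linarith
  refine ⟨16 * p * 2 ^ (p - 4) / (p - 4), by positivity, ?_⟩
  intro A B T μ hμ hA hB hm hadd h4 hinf G hG
  haveI := hμ
  obtain ⟨G', hG'm, hGG'⟩ := hG.aestronglyMeasurable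
  have hh : Measurable fun x => ‖G' x‖ := hG'm.norm.measurable
  -- layer cake
  have l1 : ∫⁻ z, ‖T G z‖ₑ ^ p ∂μ = ENNReal.ofReal p *
      ∫⁻ t in Ioi (0 : ℝ), μ {z | t < ‖T G z‖} * ENNReal.ofReal (t ^ (p - 1)) := by
    rw [← lintegral_rpow_eq_lintegral_meas_lt_mul μ (Filter.Eventually.of_forall fun z => norm_nonneg _)
      ((hm G hG).norm.aemeasurable) hp0]
    apply lintegral_congr
    intro z
    exact enorm_rpow hp0.le _
  set K : ℝ → ℝ → ℝ≥0∞ := fun t x => ENNReal.ofReal (16 * A) *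
    ((if t < 2 * B * ‖G' x‖ then ENNReal.ofReal (t ^ (p - 5)) else 0) * ENNReal.ofReal (‖G' x‖ ^ 4)) with hK
  have hKm : Measurable (Function.uncurry K) := by
    apply Measurable.const_mul
    apply Measurable.mul
    · apply Measurable.ite
      · exact measurableSet_lt measurable_fst ((hh.comp measurable_snd).const_mul _)
      · exact (measurable_fst.pow_const _).ennreal_ofReal
      · exact measurable_const
    · exact ((hh.comp measurable_snd).pow_const 4).ennreal_ofReal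
  have l2 : ∀ t ∈ Ioi (0 : ℝ), μ {z | t < ‖T G z‖} * ENNReal.ofReal (t ^ (p - 1)) ≤ ∫⁻ x, K t x := by
    intro t ht
    have ht0 : 0 < t := ht
    have w := weak A B T μ hA hB hm hadd h4 hinf G hG t ht0
    have e1 : ∫⁻ x, {x | t < 2 * B * ‖G x‖}.indicator (fun x => ‖G x‖ₑ ^ 4) x =
        ∫⁻ x, (if t < 2 * B * ‖G' x‖ then ENNReal.ofReal (‖G' x‖ ^ 4) else 0) := by
      apply lintegral_congr_ae
      filter_upwards [hGG'] with x hx
      rw [← hx]
      by_cases h : t < 2 * B * ‖G x‖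
      · rw [if_pos h, Set.indicator_of_mem (show x ∈ {x | t < 2 * B * ‖G x‖} from h), enorm_pow4]
      · rw [if_neg h, Set.indicator_of_notMem (show x ∉ {x | t < 2 * B * ‖G x‖} from h)]
    rw [e1] at w
    have hFm : Measurable fun x => (if t < 2 * B * ‖G' x‖ then ENNReal.ofReal (‖G' x‖ ^ 4) else 0 : ℝ≥0∞) := by
      apply Measurable.ite
      · exact measurableSet_lt measurable_const (hh.const_mul _)
      · exact (hh.pow_const 4).ennreal_ofReal
      · exact measurable_const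
    calc μ {z | t < ‖T G z‖} * ENNReal.ofReal (t ^ (p - 1))
        ≤ (ENNReal.ofReal (16 * A * t ^ (-4 : ℝ)) *
          ∫⁻ x, (if t < 2 * B * ‖G' x‖ then ENNReal.ofReal (‖G' x‖ ^ 4) else 0)) * ENNReal.ofReal (t ^ (p - 1)) := by
          gcongr
      _ = (ENNReal.ofReal (16 * A) * ENNReal.ofReal (t ^ (p - 5))) *
          ∫⁻ x, (if t < 2 * B * ‖G' x‖ then ENNReal.ofReal (‖G' x‖ ^ 4) else 0) := by
          have e2 : ENNReal.ofReal (16 * A * t ^ (-4 : ℝ)) * ENNReal.ofReal (t ^ (p - 1)) =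
              ENNReal.ofReal (16 * A) * ENNReal.ofReal (t ^ (p - 5)) := by
            rw [← ENNReal.ofReal_mul (by positivity), ← ENNReal.ofReal_mul (by positivity), mul_assoc,
              ← Real.rpow_add ht0]
            congr 3
            ring
          rw [← e2]
          ring
      _ = ∫⁻ x, (ENNReal.ofReal (16 * A) * ENNReal.ofReal (t ^ (p - 5))) *
          (if t < 2 * B * ‖G' x‖ then ENNReal.ofReal (‖G' x‖ ^ 4) else 0) := by
          rw [lintegral_const_mul _ hFm]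
      _ = ∫⁻ x, K t x := by
          apply lintegral_congr
          intro x
          simp only [hK]
          by_cases h : t < 2 * B * ‖G' x‖
          · rw [if_pos h, if_pos h, mul_assoc]
          · rw [if_neg h, if_neg h]
            simp
  have l3 : ∫⁻ t in Ioi (0 : ℝ), μ {z | t < ‖T G z‖} * ENNReal.ofReal (t ^ (p - 1)) ≤
      ∫⁻ t in Ioi (0 : ℝ), ∫⁻ x, K t x := setLIntegral_mono' measurableSet_Ioi l2
  have l4 : ∫⁻ t in Ioi (0 : ℝ), ∫⁻ x, K t x = ∫⁻ x, ∫⁻ t in Ioi (0 : ℝ), K t x :=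
    lintegral_lintegral_swap hKm.aemeasurable
  have l5 : ∀ x, ∫⁻ t in Ioi (0 : ℝ), K t x =
      ENNReal.ofReal (16 * A * (2 * B) ^ (p - 4) / (p - 4)) * ENNReal.ofReal (‖G' x‖ ^ p) := by
    intro x
    have hg : 0 ≤ ‖G' x‖ := norm_nonneg _
    have hm1 : Measurable fun t : ℝ => (if t < 2 * B * ‖G' x‖ then ENNReal.ofReal (t ^ (p - 5)) else 0 : ℝ≥0∞) := by
      apply Measurable.ite
      · exact measurableSet_lt measurable_id measurable_const
      · exact (measurable_id.pow_const _).ennreal_ofReal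
      · exact measurable_const
    simp only [hK]
    rw [lintegral_const_mul _ (hm1.mul_const _), lintegral_mul_const _ hm1, inner hp (by positivity),
      ← ENNReal.ofReal_mul (by positivity), ← ENNReal.ofReal_mul (by positivity),
      ← ENNReal.ofReal_mul (by positivity)]
    congr 1
    have e3 : ‖G' x‖ ^ p = ‖G' x‖ ^ 4 * ‖G' x‖ ^ (p - 4) := by
      have h6 := Real.rpow_add_of_nonneg hg (by norm_num : (0 : ℝ) ≤ 4) hp4.le
      rw [add_sub_cancel] at h6
      rw [h6]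
      congr 1
      rw [← Real.rpow_natCast]
      norm_num
    rw [Real.mul_rpow (by positivity) hg, e3]
    ring
  calc ∫⁻ z, ‖T G z‖ₑ ^ p ∂μ ≤ ENNReal.ofReal p * ∫⁻ x, ∫⁻ t in Ioi (0 : ℝ), K t x := by
        rw [l1, ← l4]
        gcongr
    _ = ENNReal.ofReal p * ∫⁻ x, ENNReal.ofReal (16 * A * (2 * B) ^ (p - 4) / (p - 4)) *
          ENNReal.ofReal (‖G' x‖ ^ p) := by
        rw [lintegral_congr l5]
    _ = ENNReal.ofReal p * (ENNReal.ofReal (16 * A * (2 * B) ^ (p - 4) / (p - 4)) *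
          ∫⁻ x, ENNReal.ofReal (‖G' x‖ ^ p)) := by
        rw [lintegral_const_mul _ ((hh.pow_const p).ennreal_ofReal)]
    _ = ENNReal.ofReal (16 * p * 2 ^ (p - 4) / (p - 4) * A * B ^ (p - 4)) *
          ∫⁻ x, ENNReal.ofReal (‖G' x‖ ^ p) := by
        rw [← mul_assoc, ← ENNReal.ofReal_mul hp0.le]
        congr 2
        rw [Real.mul_rpow (by norm_num) hB.le]
        ring
    _ = _ := by
        congr 1
        apply lintegral_congr_ae
        filter_upwards [hGG'] with x hx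
        rw [← hx, enorm_rpow hp0.le]

end Pool.Agent.N34.LSP

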